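import Mathlib
import Pool.Agent.Lib_helper15.C10.Defs3

/-!
# Module H1 : the sesquilinear form of asymptotic behaviour
-/

set_option autoImplicit false

universe u

namespace Pool.Agent.C10

open Filter Set
open scoped Topology

namespace H1

variable {H : Type u} [NormedAddCommGroup H] [InnerProductSpace ℂ H] (T : H →L[ℂ] H)

/-- Cesaro means -/
noncomputable def s (N : ℕ) (x y : H) : ℂ :=
  ((N : ℂ) + 1)⁻¹ * ∑ j ∈ Finset.range (N + 1), inner ℂ ((T ^ j) x) ((T ^ j) y)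

lemma norm_pow_apply {M : ℝ} (hM : ∀ n : ℕ, ‖T ^ n‖ ≤ M) (n : ℕ) (x : H) :
    ‖(T ^ n) x‖ ≤ M * ‖x‖ :=
  ((T ^ n).le_opNorm x).trans (mul_le_mul_of_nonneg_right (hM n) (norm_nonneg _))

lemma M_nonneg {M : ℝ} (hM : ∀ n : ℕ, ‖T ^ n‖ ≤ M) : 0 ≤ M := (norm_nonneg _).trans (hM 0)

lemma norm_s_le {M : ℝ} (hM : ∀ n : ℕ, ‖T ^ n‖ ≤ M) (N : ℕ) (x y : H) :
    ‖s T N x y‖ ≤ M ^ 2 * ‖x‖ * ‖y‖ := by
  have hM0 := M_nonneg T hM
  unfold s
  have hN : (0 : ℝ) < (N : ℝ) + 1 := by positivity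
  have hN' : ‖((N : ℂ) + 1)⁻¹‖ = ((N : ℝ) + 1)⁻¹ := by
    rw [norm_inv]
    congr 1
    have : ((N : ℂ) + 1) = (((N : ℝ) + 1 : ℝ) : ℂ) := by push_cast; ring
    rw [this, Complex.norm_real, Real.norm_of_nonneg hN.le]
  rw [norm_mul, hN', inv_mul_le_iff₀ hN]
  refine (norm_sum_le _ _).trans ?_
  have h1 : ∀ j ∈ Finset.range (N + 1), ‖(inner ℂ ((T ^ j) x) ((T ^ j) y) : ℂ)‖ ≤
      M ^ 2 * ‖x‖ * ‖y‖ := by
    intro j _
    refine (norm_inner_le_norm _ _).trans ?_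
    calc ‖(T ^ j) x‖ * ‖(T ^ j) y‖ ≤ (M * ‖x‖) * (M * ‖y‖) :=
          mul_le_mul (norm_pow_apply T hM j x) (norm_pow_apply T hM j y) (norm_nonneg _)
            (by positivity)
      _ = _ := by ring
  refine (Finset.sum_le_sum h1).trans (le_of_eq ?_)
  rw [Finset.sum_const, Finset.card_range, nsmul_eq_mul]
  push_cast
  ring

lemma exists_lim {M : ℝ} (hM : ∀ n : ℕ, ‖T ^ n‖ ≤ M) (x y : H) :
    ∃ l : ℂ, ‖l‖ ≤ M ^ 2 * ‖x‖ * ‖y‖ ∧
      Tendsto (fun N => s T N x y) (hyperfilter ℕ : Filter ℕ) (𝓝 l) := by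
  have hc : IsCompact (Metric.closedBall (0 : ℂ) (M ^ 2 * ‖x‖ * ‖y‖)) := isCompact_closedBall _ _
  obtain ⟨l, hl, hl2⟩ := hc.ultrafilter_le_nhds (Ultrafilter.map (fun N : ℕ => s T N x y)
    (hyperfilter ℕ)) (by
      rw [le_principal_iff, Ultrafilter.coe_map, Filter.mem_map]
      refine Filter.univ_mem' fun N => ?_
      rw [Set.mem_preimage, mem_closedBall_zero_iff]
      exact norm_s_le T hM N x y)
  exact ⟨l, by rwa [mem_closedBall_zero_iff] at hl, hl2⟩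

/-- the form, as a function -/
noncomputable def b {M : ℝ} (hM : ∀ n : ℕ, ‖T ^ n‖ ≤ M) (x y : H) : ℂ :=
  Classical.choose (exists_lim T hM x y)

lemma norm_b_le {M : ℝ} (hM : ∀ n : ℕ, ‖T ^ n‖ ≤ M) (x y : H) :
    ‖b T hM x y‖ ≤ M ^ 2 * ‖x‖ * ‖y‖ := (Classical.choose_spec (exists_lim T hM x y)).1

lemma tendsto_b {M : ℝ} (hM : ∀ n : ℕ, ‖T ^ n‖ ≤ M) (x y : H) :
    Tendsto (fun N => s T N x y) (hyperfilter ℕ : Filter ℕ) (𝓝 (b T hM x y)) :=
  (Classical.choose_spec (exists_lim T hM x y)).2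

lemma s_add_left (N : ℕ) (x x' y : H) : s T N (x + x') y = s T N x y + s T N x' y := by
  unfold s
  rw [← mul_add, ← Finset.sum_add_distrib]
  congr 1
  apply Finset.sum_congr rfl
  intro j _
  rw [map_add, inner_add_left]

lemma s_add_right (N : ℕ) (x y y' : H) : s T N x (y + y') = s T N x y + s T N x y' := by
  unfold s
  rw [← mul_add, ← Finset.sum_add_distrib]
  congr 1
  apply Finset.sum_congr rfl
  intro j _
  rw [map_add, inner_add_right]

lemma s_smul_left (N : ℕ) (c : ℂ) (x y : H) :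
    s T N (c • x) y = (starRingEnd ℂ) c * s T N x y := by
  unfold s
  simp only [map_smul, inner_smul_left, ← Finset.mul_sum]
  ring

lemma s_smul_right (N : ℕ) (c : ℂ) (x y : H) : s T N x (c • y) = c * s T N x y := by
  unfold s
  simp only [map_smul, inner_smul_right, ← Finset.mul_sum]
  ring

lemma s_symm (N : ℕ) (x y : H) : s T N y x = (starRingEnd ℂ) (s T N x y) := by
  unfold s
  rw [map_mul, map_sum, map_inv₀, map_add, map_one, Complex.conj_natCast]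
  congr 1
  apply Finset.sum_congr rfl
  intro j _
  exact (inner_conj_symm _ _).symm

lemma s_self (N : ℕ) (x : H) : (s T N x x).re =
    ((N : ℝ) + 1)⁻¹ * ∑ j ∈ Finset.range (N + 1), ‖(T ^ j) x‖ ^ 2 := by
  unfold s
  have h1 : ((N : ℂ) + 1)⁻¹ * ∑ j ∈ Finset.range (N + 1), inner ℂ ((T ^ j) x) ((T ^ j) x) =
      ((((N : ℝ) + 1)⁻¹ * ∑ j ∈ Finset.range (N + 1), ‖(T ^ j) x‖ ^ 2 : ℝ) : ℂ) := by
    push_cast
    congr 1
    apply Finset.sum_congr rfl
    intro j _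
    rw [inner_self_eq_norm_sq_to_K]
    rfl
  rw [h1, Complex.ofReal_re]

lemma s_shift {M : ℝ} (hM : ∀ n : ℕ, ‖T ^ n‖ ≤ M) (N : ℕ) (x y : H) :
    ‖s T N (T x) (T y) - s T N x y‖ ≤ 2 * (M ^ 2 * ‖x‖ * ‖y‖) * ((N : ℝ) + 1)⁻¹ := by
  have hM0 := M_nonneg T hM
  unfold s
  rw [← mul_sub, ← Finset.sum_sub_distrib]
  have h1 : ∑ j ∈ Finset.range (N + 1), ((inner ℂ ((T ^ j) (T x)) ((T ^ j) (T y)) : ℂ) -
      inner ℂ ((T ^ j) x) ((T ^ j) y)) =
      inner ℂ ((T ^ (N + 1)) x) ((T ^ (N + 1)) y) - inner ℂ x y := by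
    have h2 := Finset.sum_range_sub (fun j => (inner ℂ ((T ^ j) x) ((T ^ j) y) : ℂ)) (N + 1)
    rw [pow_zero] at h2
    rw [show (inner ℂ x y : ℂ) = inner ℂ ((1 : H →L[ℂ] H) x) ((1 : H →L[ℂ] H) y) by rfl, ← h2]
    apply Finset.sum_congr rfl
    intro j _
    rw [pow_succ]
    rfl
  rw [h1]
  have hN' : ‖((N : ℂ) + 1)⁻¹‖ = ((N : ℝ) + 1)⁻¹ := by
    rw [norm_inv]
    congr 1
    have : ((N : ℂ) + 1) = (((N : ℝ) + 1 : ℝ) : ℂ) := by push_cast; ring
    rw [this, Complex.norm_real, Real.norm_of_nonneg (by positivity)]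
  rw [norm_mul, hN', mul_comm]
  apply mul_le_mul_of_nonneg_right _ (by positivity)
  refine (norm_sub_le _ _).trans ?_
  have h3 : ‖(inner ℂ ((T ^ (N + 1)) x) ((T ^ (N + 1)) y) : ℂ)‖ ≤ M ^ 2 * ‖x‖ * ‖y‖ := by
    refine (norm_inner_le_norm _ _).trans ?_
    calc ‖(T ^ (N + 1)) x‖ * ‖(T ^ (N + 1)) y‖ ≤ (M * ‖x‖) * (M * ‖y‖) :=
          mul_le_mul (norm_pow_apply T hM _ x) (norm_pow_apply T hM _ y) (norm_nonneg _)
            (by positivity)
      _ = _ := by ring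
  have h4 : ‖(inner ℂ x y : ℂ)‖ ≤ M ^ 2 * ‖x‖ * ‖y‖ := by
    refine (norm_inner_le_norm _ _).trans ?_
    have e1 := norm_pow_apply T hM 0 x
    have e2 := norm_pow_apply T hM 0 y
    rw [pow_zero] at e1 e2
    calc ‖x‖ * ‖y‖ ≤ (M * ‖x‖) * (M * ‖y‖) :=
          mul_le_mul e1 e2 (norm_nonneg _) (by positivity)
      _ = _ := by ring
  linarith

lemma tendsto_inv : Tendsto (fun N : ℕ => ((N : ℝ) + 1)⁻¹) (hyperfilter ℕ : Filter ℕ) (𝓝 0) := by
  have h1 : Tendsto (fun N : ℕ => 1 / ((N : ℝ) + 1)) atTop (𝓝 0) :=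
    tendsto_one_div_add_atTop_nhds_zero_nat
  simp only [one_div] at h1
  exact h1.mono_left Nat.hyperfilter_le_atTop

/-- the form -/
noncomputable def B {M : ℝ} (hM : ∀ n : ℕ, ‖T ^ n‖ ≤ M) : H →L⋆[ℂ] H →L[ℂ] ℂ :=
  LinearMap.mkContinuous₂ (LinearMap.mk₂'ₛₗ (starRingEnd ℂ) (RingHom.id ℂ) (b T hM)
    (fun x x' y => tendsto_nhds_unique (tendsto_b T hM (x + x') y) (by
      simp only [s_add_left]
      exact (tendsto_b T hM x y).add (tendsto_b T hM x' y)))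
    (fun c x y => tendsto_nhds_unique (tendsto_b T hM (c • x) y) (by
      simp only [s_smul_left]
      exact (tendsto_b T hM x y).const_mul _))
    (fun x y y' => tendsto_nhds_unique (tendsto_b T hM x (y + y')) (by
      simp only [s_add_right]
      exact (tendsto_b T hM x y).add (tendsto_b T hM x y')))
    (fun c x y => tendsto_nhds_unique (tendsto_b T hM x (c • y)) (by
      simp only [s_smul_right]
      exact (tendsto_b T hM x y).const_mul _))) (M ^ 2) (fun x y => norm_b_le T hM x y)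

lemma B_apply {M : ℝ} (hM : ∀ n : ℕ, ‖T ^ n‖ ≤ M) (x y : H) : B T hM x y = b T hM x y := rfl

lemma tendsto_B {M : ℝ} (hM : ∀ n : ℕ, ‖T ^ n‖ ≤ M) (x y : H) :
    Tendsto (fun N => s T N x y) (hyperfilter ℕ : Filter ℕ) (𝓝 (B T hM x y)) := tendsto_b T hM x y

lemma tendsto_B_re {M : ℝ} (hM : ∀ n : ℕ, ‖T ^ n‖ ≤ M) (x : H) :
    Tendsto (fun N : ℕ => ((N : ℝ) + 1)⁻¹ * ∑ j ∈ Finset.range (N + 1), ‖(T ^ j) x‖ ^ 2)
      (hyperfilter ℕ : Filter ℕ) (𝓝 (B T hM x x).re) := by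
  have h1 := (Complex.continuous_re.tendsto _).comp (tendsto_B T hM x x)
  refine h1.congr fun N => ?_
  exact s_self T N x

end H1

theorem modH1 : ModH0.{u} → ModH1.{u} := by
  intro hH0 H _ _ T M hM
  have hM0 := H1.M_nonneg T hM
  refine ⟨H1.B T hM, ?_, ?_, ?_, ?_, ?_⟩
  · intro x y
    refine tendsto_nhds_unique (H1.tendsto_B T hM y x) ?_
    have h1 := (Complex.continuous_conj.tendsto _).comp (H1.tendsto_B T hM x y)
    refine h1.congr fun N => ?_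
    exact (H1.s_symm T N x y).symm
  · intro x
    refine ge_of_tendsto (H1.tendsto_B_re T hM x) (Eventually.of_forall fun N => ?_)
    positivity
  · intro x y
    refine tendsto_nhds_unique (H1.tendsto_B T hM (T x) (T y)) ?_
    have h1 : Tendsto (fun N => H1.s T N (T x) (T y) - H1.s T N x y)
        (hyperfilter ℕ : Filter ℕ) (𝓝 0) := by
      apply squeeze_zero_norm (fun N => H1.s_shift T hM N x y)
      have := (H1.tendsto_inv).const_mul (2 * (M ^ 2 * ‖x‖ * ‖y‖))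
      rwa [mul_zero] at this
    have h2 := h1.add (H1.tendsto_B T hM x y)
    rw [zero_add] at h2
    refine h2.congr fun N => ?_
    ring
  · intro x ε hε
    set S : Set ℝ := Set.range fun j : ℕ => ‖(T ^ j) x‖ ^ 2 with hS
    have hSb : BddBelow S := ⟨0, by rintro _ ⟨j, rfl⟩; positivity⟩
    have hSne : S.Nonempty := ⟨_, ⟨0, rfl⟩⟩
    set m : ℝ := sInf S with hm
    have hmle : ∀ j : ℕ, m ≤ ‖(T ^ j) x‖ ^ 2 := fun j => csInf_le hSb ⟨j, rfl⟩
    have hBm : m ≤ (H1.B T hM x x).re := by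
      refine ge_of_tendsto (H1.tendsto_B_re T hM x) (Eventually.of_forall fun N => ?_)
      have hN : (0 : ℝ) < (N : ℝ) + 1 := by positivity
      rw [le_inv_mul_iff₀ hN]
      calc ((N : ℝ) + 1) * m = ∑ j ∈ Finset.range (N + 1), m := by
            rw [Finset.sum_const, Finset.card_range, nsmul_eq_mul]; push_cast; ring
        _ ≤ _ := Finset.sum_le_sum fun j _ => hmle j
    obtain ⟨_, ⟨j, rfl⟩, hj⟩ := exists_lt_of_csInf_lt hSne
      (show sInf S < m + ε / (M ^ 2 + 1) by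
        have : 0 < ε / (M ^ 2 + 1) := by positivity
        linarith)
    filter_upwards [eventually_ge_atTop j] with n hn
    obtain ⟨k, rfl⟩ := Nat.exists_eq_add_of_le hn
    have h1 : (T ^ (j + k)) x = (T ^ k) ((T ^ j) x) := by
      rw [add_comm, pow_add]; rfl
    have h2 : ‖(T ^ (j + k)) x‖ ≤ M * ‖(T ^ j) x‖ := by
      rw [h1]; exact H1.norm_pow_apply T hM k _
    have h3 : ‖(T ^ (j + k)) x‖ ^ 2 ≤ M ^ 2 * ‖(T ^ j) x‖ ^ 2 := by
      rw [← mul_pow]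
      exact pow_le_pow_left₀ (norm_nonneg _) h2 2
    have h4 : M ^ 2 * (ε / (M ^ 2 + 1)) ≤ ε := by
      rw [← mul_div_assoc, div_le_iff₀ (by positivity)]
      nlinarith
    have h5 : M ^ 2 * ‖(T ^ j) x‖ ^ 2 ≤ M ^ 2 * (m + ε / (M ^ 2 + 1)) :=
      mul_le_mul_of_nonneg_left hj.le (by positivity)
    have h6 : M ^ 2 * m ≤ M ^ 2 * (H1.B T hM x x).re :=
      mul_le_mul_of_nonneg_left hBm (by positivity)
    calc ‖(T ^ (j + k)) x‖ ^ 2 ≤ M ^ 2 * ‖(T ^ j) x‖ ^ 2 := h3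
      _ ≤ M ^ 2 * (m + ε / (M ^ 2 + 1)) := h5
      _ = M ^ 2 * m + M ^ 2 * (ε / (M ^ 2 + 1)) := by ring
      _ ≤ _ := by linarith
  · intro p hp x
    have h1 : ∀ N : ℕ, ∑ j ∈ Finset.range (N + 1), ‖(T ^ j) (Polynomial.aeval T p x)‖ ^ 2 ≤
        ∑ j ∈ Finset.range (N + 1), ‖(T ^ j) x‖ ^ 2 + p.natDegree * (M * ‖x‖) ^ 2 := by
      intro N
      have h2 := hH0 p hp (fun j => (T ^ j) x) (N + 1)
      have h3 : ∀ j : ℕ, ∑ k ∈ Finset.range (p.natDegree + 1), p.coeff k • (T ^ (j + k)) x =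
          (T ^ j) (Polynomial.aeval T p x) := by
        intro j
        rw [Polynomial.aeval_eq_sum_range, sum_apply, map_sum]
        apply Finset.sum_congr rfl
        intro k _
        rw [smul_apply, map_smul, pow_add]
        rfl
      simp only [h3] at h2
      refine h2.trans ?_
      rw [Finset.sum_range_add _ (N + 1) p.natDegree]
      apply add_le_add le_rfl
      calc ∑ i ∈ Finset.range p.natDegree, ‖(T ^ (N + 1 + i)) x‖ ^ 2 ≤
          ∑ _i ∈ Finset.range p.natDegree, (M * ‖x‖) ^ 2 :=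
            Finset.sum_le_sum fun i _ => pow_le_pow_left₀ (norm_nonneg _)
              (H1.norm_pow_apply T hM _ x) 2
        _ = _ := by rw [Finset.sum_const, Finset.card_range, nsmul_eq_mul]
    have h4 := H1.tendsto_B_re T hM (Polynomial.aeval T p x)
    have h5 : Tendsto (fun N : ℕ => ((N : ℝ) + 1)⁻¹ *
        ∑ j ∈ Finset.range (N + 1), ‖(T ^ j) x‖ ^ 2 +
        ((N : ℝ) + 1)⁻¹ * (p.natDegree * (M * ‖x‖) ^ 2)) (hyperfilter ℕ : Filter ℕ)
        (𝓝 ((H1.B T hM x x).re + 0 * (p.natDegree * (M * ‖x‖) ^ 2))) :=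
      (H1.tendsto_B_re T hM x).add ((H1.tendsto_inv).mul_const _)
    rw [zero_mul, add_zero] at h5
    refine le_of_tendsto_of_tendsto' h4 h5 fun N => ?_
    rw [← mul_add]
    exact mul_le_mul_of_nonneg_left (h1 N) (by positivity)

end Pool.Agent.C10
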