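import Mathlib
import Pool.Agent.Lib_helper15.C10.Defs

/-!
# Module TV : the total variation functional
-/

set_option autoImplicit false

namespace Pool.Agent.C10

open Filter Set
open scoped Topology

namespace TV

variable (ν : C(Circle, ℂ) →L[ℂ] ℂ)

/-- total variation on nonnegative functions -/
noncomputable def p (g : C(Circle, ℝ)) : ℝ :=
  sSup {r : ℝ | ∃ f : C(Circle, ℂ), (∀ z, ‖f z‖ ≤ g z) ∧ r = ‖ν f‖}

lemma bdd (g : C(Circle, ℝ)) :
    BddAbove {r : ℝ | ∃ f : C(Circle, ℂ), (∀ z, ‖f z‖ ≤ g z) ∧ r = ‖ν f‖} := by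
  refine ⟨‖ν‖ * ‖g‖, ?_⟩
  rintro r ⟨f, hf, rfl⟩
  refine (ν.le_opNorm f).trans ?_
  apply mul_le_mul_of_nonneg_left _ (norm_nonneg _)
  rw [ContinuousMap.norm_le _ (norm_nonneg _)]
  intro z
  refine (hf z).trans ((le_abs_self _).trans ?_)
  have := g.norm_coe_le_norm z
  rwa [Real.norm_eq_abs] at this

lemma le_p {f : C(Circle, ℂ)} {g : C(Circle, ℝ)} (h : ∀ z, ‖f z‖ ≤ g z) : ‖ν f‖ ≤ p ν g :=
  le_csSup (bdd ν g) ⟨f, h, rfl⟩

lemma p_le {g : C(Circle, ℝ)} {b : ℝ} (hb : 0 ≤ b)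
    (h : ∀ f : C(Circle, ℂ), (∀ z, ‖f z‖ ≤ g z) → ‖ν f‖ ≤ b) : p ν g ≤ b := by
  apply Real.sSup_le _ hb
  rintro r ⟨f, hf, rfl⟩
  exact h f hf

lemma p_nonneg (g : C(Circle, ℝ)) : 0 ≤ p ν g := by
  apply Real.sSup_nonneg
  rintro r ⟨f, _, rfl⟩
  exact norm_nonneg _

lemma p_zero : p ν 0 = 0 := by
  apply le_antisymm _ (p_nonneg ν 0)
  apply p_le ν le_rfl
  intro f hf
  have : f = 0 := by
    ext z
    have := hf z
    rw [ContinuousMap.zero_apply] at this
    simpa using le_antisymm this (norm_nonneg _)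
  rw [this, map_zero, norm_zero]

/-- rotation to a nonnegative value -/
lemma exists_rot (f : C(Circle, ℂ)) : ∃ f' : C(Circle, ℂ), (∀ z, ‖f' z‖ = ‖f z‖) ∧
    ν f' = ((‖ν f‖ : ℝ) : ℂ) := by
  by_cases h : ν f = 0
  · exact ⟨f, fun _ => rfl, by rw [h]; simp⟩
  · have hn : ‖ν f‖ ≠ 0 := norm_ne_zero_iff.2 h
    refine ⟨(((‖ν f‖ : ℝ) : ℂ) / ν f) • f, ?_, ?_⟩
    · intro z
      rw [ContinuousMap.smul_apply, norm_smul, norm_div, Complex.norm_real, norm_norm,
        div_self hn, one_mul]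
    · rw [map_smul, smul_eq_mul, div_mul_cancel₀ _ h]

lemma p_add {g1 g2 : C(Circle, ℝ)} (h1 : ∀ z, 0 ≤ g1 z) (h2 : ∀ z, 0 ≤ g2 z) :
    p ν (g1 + g2) = p ν g1 + p ν g2 := by
  apply le_antisymm
  · apply p_le ν (add_nonneg (p_nonneg ν _) (p_nonneg ν _))
    intro f hf
    apply le_of_forall_pos_le_add
    intro ε hε
    set e : ℝ := ε / (‖ν‖ + 1) with he
    have hνpos : 0 < ‖ν‖ + 1 := by positivity
    have hepos : 0 < e := by positivity
    have hden : ∀ z, g1 z + g2 z + e ≠ 0 := fun z => by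
      have := h1 z; have := h2 z; positivity
    have hden' : ∀ z, ((g1 z + g2 z + e : ℝ) : ℂ) ≠ 0 := fun z => by
      exact_mod_cast hden z
    let f1 : C(Circle, ℂ) := ⟨fun z => f z * (g1 z : ℂ) / ((g1 z + g2 z + e : ℝ) : ℂ), by
      apply Continuous.div _ _ hden' <;> fun_prop⟩
    let f2 : C(Circle, ℂ) := ⟨fun z => f z * (g2 z : ℂ) / ((g1 z + g2 z + e : ℝ) : ℂ), by
      apply Continuous.div _ _ hden' <;> fun_prop⟩
    have hf1 : ∀ z, ‖f1 z‖ ≤ g1 z := by
      intro z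
      have a := h1 z; have b := h2 z
      change ‖f z * (g1 z : ℂ) / ((g1 z + g2 z + e : ℝ) : ℂ)‖ ≤ g1 z
      rw [norm_div, norm_mul, Complex.norm_real, Complex.norm_real, Real.norm_of_nonneg a,
        Real.norm_of_nonneg (by positivity), div_le_iff₀ (by positivity)]
      have := hf z
      rw [ContinuousMap.add_apply] at this
      nlinarith
    have hf2 : ∀ z, ‖f2 z‖ ≤ g2 z := by
      intro z
      have a := h1 z; have b := h2 z
      change ‖f z * (g2 z : ℂ) / ((g1 z + g2 z + e : ℝ) : ℂ)‖ ≤ g2 z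
      rw [norm_div, norm_mul, Complex.norm_real, Complex.norm_real, Real.norm_of_nonneg b,
        Real.norm_of_nonneg (by positivity), div_le_iff₀ (by positivity)]
      have := hf z
      rw [ContinuousMap.add_apply] at this
      nlinarith
    have hf3 : ‖f - (f1 + f2)‖ ≤ e := by
      rw [ContinuousMap.norm_le _ hepos.le]
      intro z
      have a := h1 z; have b := h2 z
      have hfz := hf z
      rw [ContinuousMap.add_apply] at hfz
      have e1 : (f - (f1 + f2)) z = f z * (e : ℂ) / ((g1 z + g2 z + e : ℝ) : ℂ) := by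
        change f z - (f z * (g1 z : ℂ) / ((g1 z + g2 z + e : ℝ) : ℂ) +
          f z * (g2 z : ℂ) / ((g1 z + g2 z + e : ℝ) : ℂ)) = _
        have := hden' z
        field_simp
        push_cast
        ring
      rw [e1, norm_div, norm_mul, Complex.norm_real, Complex.norm_real,
        Real.norm_of_nonneg hepos.le, Real.norm_of_nonneg (by positivity),
        div_le_iff₀ (by positivity)]
      nlinarith
    have e2 : f = f1 + f2 + (f - (f1 + f2)) := by abel
    calc ‖ν f‖ = ‖ν f1 + ν f2 + ν (f - (f1 + f2))‖ := by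
          rw [← map_add, ← map_add, ← e2]
      _ ≤ ‖ν f1‖ + ‖ν f2‖ + ‖ν (f - (f1 + f2))‖ := norm_add₃_le
      _ ≤ p ν g1 + p ν g2 + ε := by
        have b1 := le_p ν hf1
        have b2 := le_p ν hf2
        have b3 : ‖ν (f - (f1 + f2))‖ ≤ ε := by
          refine (ν.le_opNorm _).trans ?_
          calc ‖ν‖ * ‖f - (f1 + f2)‖ ≤ (‖ν‖ + 1) * e := by
                apply mul_le_mul _ hf3 (norm_nonneg _) hνpos.le
                linarith
            _ = ε := by rw [he]; field_simp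
        linarith
  · -- superadditivity
    have key : ∀ f1 : C(Circle, ℂ), (∀ z, ‖f1 z‖ ≤ g1 z) → ∀ f2 : C(Circle, ℂ),
        (∀ z, ‖f2 z‖ ≤ g2 z) → ‖ν f1‖ + ‖ν f2‖ ≤ p ν (g1 + g2) := by
      intro f1 hf1 f2 hf2
      obtain ⟨k1, hk1, hk1'⟩ := exists_rot ν f1
      obtain ⟨k2, hk2, hk2'⟩ := exists_rot ν f2
      have h3 : ∀ z, ‖(k1 + k2) z‖ ≤ (g1 + g2) z := by
        intro z
        refine (norm_add_le _ _).trans ?_
        rw [hk1, hk2]
        exact add_le_add (hf1 z) (hf2 z)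
      have h4 := le_p ν h3
      rw [map_add, hk1', hk2', ← Complex.ofReal_add, Complex.norm_real,
        Real.norm_of_nonneg (by positivity)] at h4
      exact h4
    have key2 : ∀ f2 : C(Circle, ℂ), (∀ z, ‖f2 z‖ ≤ g2 z) →
        p ν g1 ≤ p ν (g1 + g2) - ‖ν f2‖ := by
      intro f2 hf2
      apply p_le
      · have := key 0 (fun z => by simpa using h1 z) f2 hf2
        rw [map_zero, norm_zero] at this
        linarith
      · intro f1 hf1
        have := key f1 hf1 f2 hf2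
        linarith
    have key3 : p ν g2 ≤ p ν (g1 + g2) - p ν g1 := by
      apply p_le
      · have := key2 0 (fun z => by simpa using h2 z)
        rw [map_zero, norm_zero] at this
        linarith
      · intro f2 hf2
        have := key2 f2 hf2
        linarith
    linarith

lemma p_smul_le {g : C(Circle, ℝ)} {c : ℝ} (hc : 0 < c) : p ν (c • g) ≤ c * p ν g := by
  apply p_le ν (mul_nonneg hc.le (p_nonneg ν g))
  intro f hf
  have h1 : ∀ z, ‖(((c⁻¹ : ℝ) : ℂ) • f) z‖ ≤ g z := by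
    intro z
    rw [ContinuousMap.smul_apply, norm_smul, Complex.norm_real,
      Real.norm_of_nonneg (by positivity)]
    have := hf z
    rw [ContinuousMap.smul_apply, smul_eq_mul] at this
    rw [inv_mul_le_iff₀ hc]
    exact this
  have h2 := le_p ν h1
  rw [map_smul, norm_smul, Complex.norm_real, Real.norm_of_nonneg (by positivity),
    inv_mul_le_iff₀ hc] at h2
  exact h2

lemma p_smul (g : C(Circle, ℝ)) {c : ℝ} (hc : 0 ≤ c) : p ν (c • g) = c * p ν g := by
  rcases hc.eq_or_lt with h0 | h0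
  · rw [← h0, zero_smul, zero_mul, p_zero]
  · apply le_antisymm (p_smul_le ν h0)
    have h1 := p_smul_le ν (g := c • g) (c := c⁻¹) (by positivity)
    rw [smul_smul, inv_mul_cancel₀ h0.ne', one_smul] at h1
    rw [← le_inv_mul_iff₀ h0]
    exact h1

/-- positive part -/
noncomputable def gp (g : C(Circle, ℝ)) : C(Circle, ℝ) := ⟨fun z => max (g z) 0, by fun_prop⟩

/-- negative part -/
noncomputable def gm (g : C(Circle, ℝ)) : C(Circle, ℝ) := ⟨fun z => max (-(g z)) 0, by fun_prop⟩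

lemma gp_nonneg (g : C(Circle, ℝ)) (z : Circle) : 0 ≤ gp g z := le_max_right _ _

lemma gm_nonneg (g : C(Circle, ℝ)) (z : Circle) : 0 ≤ gm g z := le_max_right _ _

lemma gp_sub_gm (g : C(Circle, ℝ)) (z : Circle) : gp g z - gm g z = g z := by
  change max (g z) 0 - max (-(g z)) 0 = g z
  rcases le_total 0 (g z) with h | h
  · rw [max_eq_left h, max_eq_right (by linarith)]; ring
  · rw [max_eq_right h, max_eq_left (by linarith)]; ring

/-- the extension does not depend on the decomposition -/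
lemma dec {g a b : C(Circle, ℝ)} (ha : ∀ z, 0 ≤ a z) (hb : ∀ z, 0 ≤ b z)
    (h : ∀ z, g z = a z - b z) : p ν (gp g) - p ν (gm g) = p ν a - p ν b := by
  have h1 : gp g + b = a + gm g := by
    ext z
    rw [ContinuousMap.add_apply, ContinuousMap.add_apply]
    have := gp_sub_gm g z
    have := h z
    linarith
  have h2 := p_add ν (gp_nonneg g) hb
  have h3 := p_add ν ha (gm_nonneg g)
  rw [h1] at h2
  linarith

/-- the total variation functional -/
noncomputable def L : C(Circle, ℝ) →ₗ[ℝ] ℝ where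
  toFun g := p ν (gp g) - p ν (gm g)
  map_add' g h := by
    rw [dec ν (a := gp g + gp h) (b := gm g + gm h)
      (fun z => add_nonneg (gp_nonneg g z) (gp_nonneg h z))
      (fun z => add_nonneg (gm_nonneg g z) (gm_nonneg h z))
      (fun z => by
        rw [ContinuousMap.add_apply, ContinuousMap.add_apply, ContinuousMap.add_apply,
          ← gp_sub_gm g z, ← gp_sub_gm h z]
        ring),
      p_add ν (gp_nonneg g) (gp_nonneg h), p_add ν (gm_nonneg g) (gm_nonneg h)]
    ring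
  map_smul' c g := by
    rw [RingHom.id_apply, smul_eq_mul]
    rcases le_total 0 c with hc | hc
    · rw [dec ν (a := c • gp g) (b := c • gm g)
        (fun z => mul_nonneg hc (gp_nonneg g z))
        (fun z => mul_nonneg hc (gm_nonneg g z))
        (fun z => by
          rw [ContinuousMap.smul_apply, ContinuousMap.smul_apply, ContinuousMap.smul_apply,
            ← gp_sub_gm g z]
          simp only [smul_eq_mul]
          ring), p_smul ν _ hc, p_smul ν _ hc]
      ring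
    · have hc' : 0 ≤ -c := by linarith
      rw [dec ν (a := (-c) • gm g) (b := (-c) • gp g)
        (fun z => mul_nonneg hc' (gm_nonneg g z))
        (fun z => mul_nonneg hc' (gp_nonneg g z))
        (fun z => by
          rw [ContinuousMap.smul_apply, ContinuousMap.smul_apply, ContinuousMap.smul_apply,
            ← gp_sub_gm g z]
          simp only [smul_eq_mul]
          ring), p_smul ν _ hc', p_smul ν _ hc']
      ring

lemma L_of_nonneg {g : C(Circle, ℝ)} (hg : ∀ z, 0 ≤ g z) : L ν g = p ν g := by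
  have h := dec ν (g := g) (a := g) (b := 0) hg (fun _ => le_rfl)
    (fun z => by rw [ContinuousMap.zero_apply, sub_zero])
  rw [p_zero, sub_zero] at h
  exact h

/-- complexification of a real function -/
noncomputable def rc (g : C(Circle, ℝ)) : C(Circle, ℂ) := ⟨fun z => (g z : ℂ), by fun_prop⟩

/-- approximate polar decomposition, bounded nonnegative functions -/
lemma polar1 {u : C(Circle, ℂ)} {δ : ℝ} (hu : ∀ z, ‖u z‖ ≤ 1) (hδ : p ν 1 - δ ≤ (ν u).re)
    {g : C(Circle, ℝ)} (h0 : ∀ z, 0 ≤ g z) (h1 : ∀ z, g z ≤ 1) :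
    ‖((L ν g : ℝ) : ℂ) - ν (u * rc g)‖ ^ 2 ≤ 2 * p ν 1 * δ := by
  rw [L_of_nonneg ν h0]
  set a : ℂ := ν (u * rc g) with ha
  have h2 : ‖a‖ ≤ p ν g := by
    apply le_p
    intro z
    change ‖u z * (g z : ℂ)‖ ≤ g z
    rw [norm_mul, Complex.norm_real, Real.norm_of_nonneg (h0 z)]
    have := hu z
    have := h0 z
    nlinarith
  have h3 : ‖ν (u * rc (1 - g))‖ ≤ p ν (1 - g) := by
    apply le_p
    intro z
    change ‖u z * (((1 - g z : ℝ)) : ℂ)‖ ≤ 1 - g z
    have h4 : 0 ≤ 1 - g z := by linarith [h1 z]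
    rw [norm_mul, Complex.norm_real, Real.norm_of_nonneg h4]
    have := hu z
    nlinarith
  have h5 : p ν 1 = p ν g + p ν (1 - g) := by
    rw [← p_add ν h0 (fun z => by
      change 0 ≤ 1 - g z
      linarith [h1 z])]
    congr 1
    ext z
    simp
  have h6 : ν u = a + ν (u * rc (1 - g)) := by
    rw [ha, ← map_add]
    congr 1
    ext z
    change u z = u z * (g z : ℂ) + u z * (((1 - g z : ℝ)) : ℂ)
    push_cast
    ring
  have h7 : p ν g - δ ≤ a.re := by
    have h8 : (ν u).re = a.re + (ν (u * rc (1 - g))).re := by rw [h6, Complex.add_re]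
    have h9 : (ν (u * rc (1 - g))).re ≤ p ν (1 - g) :=
      ((le_abs_self _).trans (Complex.abs_re_le_norm _)).trans h3
    linarith
  have h10 : ‖((p ν g : ℝ) : ℂ) - a‖ ^ 2 = (p ν g) ^ 2 - 2 * p ν g * a.re + ‖a‖ ^ 2 := by
    rw [← Complex.normSq_eq_norm_sq, ← Complex.normSq_eq_norm_sq, Complex.normSq_apply,
      Complex.normSq_apply]
    simp only [Complex.sub_re, Complex.sub_im, Complex.ofReal_re, Complex.ofReal_im]
    ring
  rw [h10]
  have hP := p_nonneg ν g
  have hP1 := p_nonneg ν (1 - g)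
  have h11 : ‖a‖ ^ 2 ≤ (p ν g) ^ 2 := pow_le_pow_left₀ (norm_nonneg _) h2 2
  have h12 : a.re ≤ ‖a‖ := (le_abs_self _).trans (Complex.abs_re_le_norm _)
  have hδ0 : 0 ≤ δ := by linarith
  nlinarith

/-- approximate polar decomposition, bounded real functions -/
lemma polar2 {u : C(Circle, ℂ)} {δ : ℝ} (hu : ∀ z, ‖u z‖ ≤ 1) (hδ : p ν 1 - δ ≤ (ν u).re)
    {g : C(Circle, ℝ)} {B : ℝ} (hB : 0 < B) (h1 : ∀ z, |g z| ≤ B) :
    ‖((L ν g : ℝ) : ℂ) - ν (u * rc g)‖ ≤ 2 * B * √(2 * p ν 1 * δ) := by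
  have hp : ∀ z, gp (B⁻¹ • g) z ≤ 1 := by
    intro z
    apply max_le _ zero_le_one
    change B⁻¹ * g z ≤ 1
    rw [inv_mul_le_iff₀ hB, mul_one]
    exact (le_abs_self _).trans (h1 z)
  have hm : ∀ z, gm (B⁻¹ • g) z ≤ 1 := by
    intro z
    apply max_le _ zero_le_one
    change -(B⁻¹ * g z) ≤ 1
    rw [← mul_neg, inv_mul_le_iff₀ hB, mul_one]
    exact (neg_le_abs _).trans (h1 z)
  have e1 := Real.le_sqrt_of_sq_le (polar1 ν hu hδ (gp_nonneg (B⁻¹ • g)) hp)
  have e2 := Real.le_sqrt_of_sq_le (polar1 ν hu hδ (gm_nonneg (B⁻¹ • g)) hm)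
  have hg : g = B • (gp (B⁻¹ • g) - gm (B⁻¹ • g)) := by
    ext z
    rw [ContinuousMap.smul_apply, ContinuousMap.sub_apply, gp_sub_gm, ContinuousMap.smul_apply,
      smul_eq_mul, smul_eq_mul, ← mul_assoc, mul_inv_cancel₀ hB.ne', one_mul]
  have hL : L ν g = B * (L ν (gp (B⁻¹ • g)) - L ν (gm (B⁻¹ • g))) := by
    conv_lhs => rw [hg]
    rw [map_smul, map_sub, smul_eq_mul]
  have hN : ν (u * rc g) = (B : ℂ) * (ν (u * rc (gp (B⁻¹ • g))) - ν (u * rc (gm (B⁻¹ • g)))) := by
    have hsm : ∀ (c : ℂ) (k : C(Circle, ℂ)), c * ν k = ν (c • k) := fun c k => by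
      rw [map_smul, smul_eq_mul]
    rw [← map_sub, hsm]
    congr 1
    ext z
    have := gp_sub_gm (B⁻¹ • g) z
    rw [ContinuousMap.smul_apply, smul_eq_mul] at this
    change u z * (g z : ℂ) = (B : ℂ) * (u z * ((gp (B⁻¹ • g) z : ℝ) : ℂ) -
      u z * ((gm (B⁻¹ • g) z : ℝ) : ℂ))
    have e3 : g z = B * (gp (B⁻¹ • g) z - gm (B⁻¹ • g) z) := by
      rw [this, ← mul_assoc, mul_inv_cancel₀ hB.ne', one_mul]
    have e4 : (g z : ℂ) = (B : ℂ) * (((gp (B⁻¹ • g) z : ℝ) : ℂ) - ((gm (B⁻¹ • g) z : ℝ) : ℂ)) := by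
      exact_mod_cast congrArg (fun x : ℝ => (x : ℂ)) e3
    rw [e4]
    ring
  have e5 : ((L ν g : ℝ) : ℂ) - ν (u * rc g) =
      (B : ℂ) * ((((L ν (gp (B⁻¹ • g)) : ℝ) : ℂ) - ν (u * rc (gp (B⁻¹ • g)))) -
        (((L ν (gm (B⁻¹ • g)) : ℝ) : ℂ) - ν (u * rc (gm (B⁻¹ • g))))) := by
    rw [hL, hN]
    push_cast
    ring
  rw [e5, norm_mul, Complex.norm_real, Real.norm_of_nonneg hB.le]
  have e6 := norm_sub_le (((L ν (gp (B⁻¹ • g)) : ℝ) : ℂ) - ν (u * rc (gp (B⁻¹ • g))))
    (((L ν (gm (B⁻¹ • g)) : ℝ) : ℂ) - ν (u * rc (gm (B⁻¹ • g))))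
  nlinarith

end TV

theorem modTV : ModTV := by
  intro ν hν
  refine ⟨TV.L ν, ⟨?_, ?_⟩, ?_⟩
  · intro f hf
    rw [TV.L_of_nonneg ν (fun z => hf z)]
    exact TV.p_nonneg ν f
  · intro g
    rw [Metric.tendsto_nhds]
    intro ε hε
    set B : ℝ := ‖g‖ + 1 with hB
    have hBpos : 0 < B := by positivity
    have hM := TV.p_nonneg ν 1
    -- choice of the accuracy
    obtain ⟨δ, hδpos, hδ⟩ : ∃ δ : ℝ, 0 < δ ∧ 4 * B * √(2 * TV.p ν 1 * δ) < ε / 2 := by
      have hcont : Tendsto (fun δ : ℝ => 4 * B * √(2 * TV.p ν 1 * δ)) (𝓝[>] 0) (𝓝 0) := by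
        have h1 : Continuous fun δ : ℝ => 4 * B * √(2 * TV.p ν 1 * δ) := by fun_prop
        have h2 := (h1.tendsto 0).mono_left (nhdsWithin_le_nhds (s := Ioi 0))
        simpa using h2
      have h3 := (hcont.eventually (gt_mem_nhds (half_pos hε))).and self_mem_nhdsWithin
      obtain ⟨δ, h4, h5⟩ := h3.exists
      exact ⟨δ, h5, h4⟩
    obtain ⟨u, hu, huδ⟩ : ∃ u : C(Circle, ℂ), (∀ z, ‖u z‖ ≤ 1) ∧ TV.p ν 1 - δ ≤ (ν u).re := by
      by_contra hcon
      push Not at hcon
      have h1 : TV.p ν 1 ≤ max (TV.p ν 1 - δ) 0 := by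
        apply TV.p_le ν (le_max_right _ _)
        intro f hf
        obtain ⟨k, hk, hk'⟩ := TV.exists_rot ν f
        have h2 := hcon k (fun z => by rw [hk]; simpa using hf z)
        rw [hk', Complex.ofReal_re] at h2
        exact h2.le.trans (le_max_left _ _)
      have h3 := hcon 0 (fun z => by simp)
      rw [map_zero, Complex.zero_re] at h3
      rw [max_eq_left h3.le] at h1
      linarith
    have hlim := hν (u * TV.rc g)
    have hev := (Metric.tendsto_nhds.1 hlim) (ε / 2) (half_pos hε)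
    filter_upwards [hev] with n hn
    rw [dist_zero_right] at hn
    rw [Real.dist_eq, sub_zero]
    -- cosine and sine parts
    set sn : C(Circle, ℝ) := ⟨fun z => ((z : ℂ) ^ n).im, by fun_prop⟩ with hsn
    have hgz : ∀ z, |g z| ≤ ‖g‖ := fun z => by
      have := g.norm_coe_le_norm z
      rwa [Real.norm_eq_abs] at this
    have hzn : ∀ z : Circle, ‖(z : ℂ) ^ n‖ = 1 := fun z => by rw [norm_pow, Circle.norm_coe, one_pow]
    have b1 : ∀ z, |(cosn n * g) z| ≤ B := by
      intro z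
      change |((z : ℂ) ^ n).re * g z| ≤ B
      rw [abs_mul]
      have h1 := Complex.abs_re_le_norm ((z : ℂ) ^ n)
      rw [hzn] at h1
      have h2 := hgz z
      have h3 := abs_nonneg (g z)
      have h4 := abs_nonneg ((z : ℂ) ^ n).re
      nlinarith
    have b2 : ∀ z, |(sn * g) z| ≤ B := by
      intro z
      change |((z : ℂ) ^ n).im * g z| ≤ B
      rw [abs_mul]
      have h1 := Complex.abs_im_le_norm ((z : ℂ) ^ n)
      rw [hzn] at h1
      have h2 := hgz z
      have h3 := abs_nonneg (g z)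
      have h4 := abs_nonneg ((z : ℂ) ^ n).im
      nlinarith
    have c1 := TV.polar2 ν hu huδ hBpos b1
    have c2 := TV.polar2 ν hu huδ hBpos b2
    have c3 : ν (zc ^ n * (u * TV.rc g)) =
        ν (u * TV.rc (cosn n * g)) + Complex.I * ν (u * TV.rc (sn * g)) := by
      have hsm : ∀ (c : ℂ) (k : C(Circle, ℂ)), c * ν k = ν (c • k) := fun c k => by
        rw [map_smul, smul_eq_mul]
      rw [hsm, ← map_add]
      congr 1
      ext z
      change (z : ℂ) ^ n * (u z * (g z : ℂ)) = u z * ((((z : ℂ) ^ n).re * g z : ℝ) : ℂ) +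
        Complex.I * (u z * ((((z : ℂ) ^ n).im * g z : ℝ) : ℂ))
      have := Complex.re_add_im ((z : ℂ) ^ n)
      push_cast
      conv_lhs => rw [← this]
      ring
    set x : ℝ := TV.L ν (cosn n * g) with hx
    set y : ℝ := TV.L ν (sn * g) with hy
    have c4 : |x| ≤ ‖(x : ℂ) + Complex.I * (y : ℂ)‖ := by
      have := Complex.abs_re_le_norm ((x : ℂ) + Complex.I * (y : ℂ))
      simpa using this
    have c5 : (x : ℂ) + Complex.I * (y : ℂ) =
        ((x : ℂ) - ν (u * TV.rc (cosn n * g))) +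
          Complex.I * ((y : ℂ) - ν (u * TV.rc (sn * g))) + ν (zc ^ n * (u * TV.rc g)) := by
      rw [c3]; ring
    have c6 := norm_add₃_le (a := (x : ℂ) - ν (u * TV.rc (cosn n * g)))
      (b := Complex.I * ((y : ℂ) - ν (u * TV.rc (sn * g)))) (c := ν (zc ^ n * (u * TV.rc g)))
    rw [← c5, norm_mul, Complex.norm_I, one_mul] at c6
    linarith
  · intro f
    rw [TV.L_of_nonneg ν (fun z => norm_nonneg (f z))]
    exact TV.le_p ν (fun z => le_rfl)

end Pool.Agent.C10
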