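import Mathlib
import Pool.Agent.Lib_helper15.C10.Defs2
import Pool.Agent.Lib_helper84.C10.TV

/-!
# Module TV2 : the total variation functional, complex test functions
-/

set_option autoImplicit false

namespace Pool.Agent.C10

open Filter Set
open scoped Topology

theorem modTV2 : ModTV2 := by
  intro ν hν
  refine ⟨TV.L ν, ⟨?_, ?_⟩, ?_⟩
  · intro f hf
    rw [TV.L_of_nonneg ν (fun z => hf z)]
    exact TV.p_nonneg ν f
  · intro g
    rw [Metric.tendsto_nhds]
    intro ε hε
    set B : ℝ := ‖g‖ + 1 with hB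
    have hBpos : 0 < B := by positivity
    have hM := TV.p_nonneg ν 1
    obtain ⟨δ, hδpos, hδ⟩ : ∃ δ : ℝ, 0 < δ ∧ 4 * B * √(2 * TV.p ν 1 * δ) < ε / 2 := by
      have hcont : Tendsto (fun δ : ℝ => 4 * B * √(2 * TV.p ν 1 * δ)) (𝓝[>] 0) (𝓝 0) := by
        have h1 : Continuous fun δ : ℝ => 4 * B * √(2 * TV.p ν 1 * δ) := by fun_prop
        have h2 := (h1.tendsto 0).mono_left (nhdsWithin_le_nhds (s := Ioi 0))
        simpa using h2
      have h3 := (hcont.eventually (gt_mem_nhds (half_pos hε))).and self_mem_nhdsWithin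
      obtain ⟨δ, h4, h5⟩ := h3.exists
      exact ⟨δ, h5, h4⟩
    obtain ⟨u, hu, huδ⟩ : ∃ u : C(Circle, ℂ), (∀ z, ‖u z‖ ≤ 1) ∧ TV.p ν 1 - δ ≤ (ν u).re := by
      by_contra hcon
      push Not at hcon
      have h1 : TV.p ν 1 ≤ max (TV.p ν 1 - δ) 0 := by
        apply TV.p_le ν (le_max_right _ _)
        intro f hf
        obtain ⟨k, hk, hk'⟩ := TV.exists_rot ν f
        have h2 := hcon k (fun z => by rw [hk]; simpa using hf z)
        rw [hk', Complex.ofReal_re] at h2
        exact h2.le.trans (le_max_left _ _)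
      have h3 := hcon 0 (fun z => by simp)
      rw [map_zero, Complex.zero_re] at h3
      rw [max_eq_left h3.le] at h1
      linarith
    have hlim := hν (u * g)
    have hev := (Metric.tendsto_nhds.1 hlim) (ε / 2) (half_pos hε)
    filter_upwards [hev] with n hn
    rw [dist_zero_right] at hn
    rw [Real.dist_eq, sub_zero]
    set sn : C(Circle, ℝ) := ⟨fun z => ((zc ^ n * g) z).im, by fun_prop⟩ with hsn
    have hgz : ∀ z, ‖g z‖ ≤ B := fun z => by
      have := g.norm_coe_le_norm z
      linarith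
    have hzn : ∀ z : Circle, ‖(zc ^ n * g) z‖ = ‖g z‖ := fun z => by
      change ‖(z : ℂ) ^ n * g z‖ = ‖g z‖
      rw [norm_mul, norm_pow, Circle.norm_coe, one_pow, one_mul]
    have b1 : ∀ z, |(reC (zc ^ n * g)) z| ≤ B := by
      intro z
      change |((zc ^ n * g) z).re| ≤ B
      refine (Complex.abs_re_le_norm _).trans ?_
      rw [hzn]
      exact hgz z
    have b2 : ∀ z, |sn z| ≤ B := by
      intro z
      change |((zc ^ n * g) z).im| ≤ B
      refine (Complex.abs_im_le_norm _).trans ?_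
      rw [hzn]
      exact hgz z
    have c1 := TV.polar2 ν hu huδ hBpos b1
    have c2 := TV.polar2 ν hu huδ hBpos b2
    have c3 : ν (zc ^ n * (u * g)) =
        ν (u * TV.rc (reC (zc ^ n * g))) + Complex.I * ν (u * TV.rc sn) := by
      have hsm : ∀ (c : ℂ) (k : C(Circle, ℂ)), c * ν k = ν (c • k) := fun c k => by
        rw [map_smul, smul_eq_mul]
      rw [hsm, ← map_add]
      congr 1
      ext z
      change (z : ℂ) ^ n * (u z * g z) = u z * ((((zc ^ n * g) z).re : ℝ) : ℂ) +
        Complex.I * (u z * ((((zc ^ n * g) z).im : ℝ) : ℂ))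
      have h1 := Complex.re_add_im ((zc ^ n * g) z)
      have h2 : (zc ^ n * g) z = (z : ℂ) ^ n * g z := rfl
      calc (z : ℂ) ^ n * (u z * g z) = u z * ((zc ^ n * g) z) := by rw [h2]; ring
        _ = u z * ((((zc ^ n * g) z).re : ℝ) + (((zc ^ n * g) z).im : ℝ) * Complex.I) := by rw [h1]
        _ = _ := by ring
    set x : ℝ := TV.L ν (reC (zc ^ n * g)) with hx
    set y : ℝ := TV.L ν sn with hy
    have c4 : |x| ≤ ‖(x : ℂ) + Complex.I * (y : ℂ)‖ := by
      have := Complex.abs_re_le_norm ((x : ℂ) + Complex.I * (y : ℂ))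
      simpa using this
    have c5 : (x : ℂ) + Complex.I * (y : ℂ) =
        ((x : ℂ) - ν (u * TV.rc (reC (zc ^ n * g)))) +
          Complex.I * ((y : ℂ) - ν (u * TV.rc sn)) + ν (zc ^ n * (u * g)) := by
      rw [c3]; ring
    have c6 := norm_add₃_le (a := (x : ℂ) - ν (u * TV.rc (reC (zc ^ n * g))))
      (b := Complex.I * ((y : ℂ) - ν (u * TV.rc sn))) (c := ν (zc ^ n * (u * g)))
    rw [← c5, norm_mul, Complex.norm_I, one_mul] at c6
    linarith
  · intro f
    rw [TV.L_of_nonneg ν (fun z => norm_nonneg (f z))]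
    exact TV.le_p ν (fun z => le_rfl)

end Pool.Agent.C10
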